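import Mathlib

set_option autoImplicit false

/-
Abstract part: a commutative algebra with an integration bracket `hs F G` (think of the integral of
`F dG`), the span of iterated integrals, and the one-step elimination lemma for areas.
-/

namespace Pool.Agent.P.MP_9504dd_al

variable {R : Type*} [CommRing R] [Algebra ℚ R]

/-- The three identities of the half shuffle that the argument uses. -/
structure IsInt (hs : R →ₗ[ℚ] R →ₗ[ℚ] R) : Prop where
  leib : ∀ F G H, hs F (G * H) = hs (F * G) H + hs (F * H) G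
  zin : ∀ F G w, hs F (hs G w) = hs (F * G) w
  one : ∀ x, ∃ c : ℚ, hs 1 x = x - c • (1 : R)

/-- Iterated integral of a list; the head is the outermost integrator. -/
def iter (hs : R →ₗ[ℚ] R →ₗ[ℚ] R) : List R → R
  | [] => 1
  | y :: l => hs (iter hs l) y

/-- Span of the iterated integrals of elements of `S`. -/
def Zs (hs : R →ₗ[ℚ] R →ₗ[ℚ] R) (S : Set R) : Submodule ℚ R :=
  Submodule.span ℚ {x | ∃ l : List R, (∀ y ∈ l, y ∈ S) ∧ iter hs l = x}

variable {hs : R →ₗ[ℚ] R →ₗ[ℚ] R}

theorem IsInt.hs_one (h : IsInt hs) (F : R) : hs F 1 = 0 := by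
  have := h.leib F 1 1
  simp only [mul_one] at this
  exact left_eq_add.mp this

theorem iter_mem {S : Set R} {l : List R} (hl : ∀ y ∈ l, y ∈ S) : iter hs l ∈ Zs hs S :=
  Submodule.subset_span ⟨l, hl, rfl⟩

theorem one_mem_Zs (S : Set R) : (1 : R) ∈ Zs hs S :=
  iter_mem (l := []) (by simp)

theorem hs_mem_Zs {S : Set R} {G y : R} (hG : G ∈ Zs hs S) (hy : y ∈ S) : hs G y ∈ Zs hs S := by
  induction hG using Submodule.span_induction with
  | mem x hx =>
    obtain ⟨l, hl, rfl⟩ := hx
    exact iter_mem (l := y :: l) (by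
      intro t ht
      rcases List.mem_cons.mp ht with rfl | ht
      · exact hy
      · exact hl t ht)
  | zero => simp
  | add a b _ _ ha hb => rw [map_add, LinearMap.add_apply]; exact add_mem ha hb
  | smul c a _ ha => rw [map_smul, LinearMap.smul_apply]; exact Submodule.smul_mem _ _ ha

theorem Zs_le {S : Set R} {M : Submodule ℚ R} (h1 : (1 : R) ∈ M)
    (hM : ∀ G ∈ M, ∀ y ∈ S, hs G y ∈ M) : Zs hs S ≤ M := by
  refine Submodule.span_le.mpr ?_
  rintro x ⟨l, hl, rfl⟩
  induction l with
  | nil => exact h1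
  | cons y l ih =>
    exact hM _ (ih fun t ht => hl t (List.mem_cons_of_mem _ ht)) y (hl y List.mem_cons_self)

theorem Zs_mono {S T : Set R} (h : S ⊆ T) : Zs hs S ≤ Zs hs T :=
  Zs_le (one_mem_Zs T) fun _ hG _ hy => hs_mem_Zs hG (h hy)

theorem IsInt.mul_eq (h : IsInt hs) (x y : R) :
    ∃ c : ℚ, x * y = hs x y + hs y x + c • (1 : R) := by
  obtain ⟨c, hc⟩ := h.one (x * y)
  refine ⟨c, ?_⟩
  have := h.leib 1 x y
  simp only [one_mul] at this
  rw [← this, hc]; ring

theorem IsInt.iter_mul_mem (h : IsInt hs) {S : Set R} :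
    ∀ (n : ℕ) (u v : List R), u.length + v.length = n → (∀ y ∈ u, y ∈ S) → (∀ y ∈ v, y ∈ S) →
      iter hs u * iter hs v ∈ Zs hs S := by
  intro n
  induction n with
  | zero =>
    intro u v huv hu hv
    have : u = [] := List.length_eq_zero_iff.mp (by omega)
    subst this
    simpa [iter] using iter_mem hv
  | succ n ih =>
    intro u v huv hu hv
    match u, v with
    | [], v => simpa [iter] using iter_mem hv
    | u, [] => simpa [iter] using iter_mem hu
    | a :: u, b :: v =>
      obtain ⟨c, hc⟩ := h.mul_eq (iter hs (a :: u)) (iter hs (b :: v))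
      rw [hc]
      have hu' : ∀ y ∈ u, y ∈ S := fun t ht => hu t (List.mem_cons_of_mem _ ht)
      have hv' : ∀ y ∈ v, y ∈ S := fun t ht => hv t (List.mem_cons_of_mem _ ht)
      simp only [List.length_cons] at huv
      refine add_mem (add_mem ?_ ?_) (Submodule.smul_mem _ _ (one_mem_Zs S))
      · have e : hs (iter hs (a :: u)) (iter hs (b :: v)) =
            hs (iter hs (a :: u) * iter hs v) b := by
          conv_lhs => rw [show iter hs (b :: v) = hs (iter hs v) b from rfl]
          rw [h.zin]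
        rw [e]
        exact hs_mem_Zs (ih (a :: u) v (by simp; omega) hu hv') (hv b List.mem_cons_self)
      · have e : hs (iter hs (b :: v)) (iter hs (a :: u)) =
            hs (iter hs u * iter hs (b :: v)) a := by
          conv_lhs => rw [show iter hs (a :: u) = hs (iter hs u) a from rfl]
          rw [h.zin, mul_comm]
        rw [e]
        exact hs_mem_Zs (ih u (b :: v) (by simp; omega) hu' hv) (hu a List.mem_cons_self)

theorem IsInt.mul_mem_Zs (h : IsInt hs) {S : Set R} {x y : R} (hx : x ∈ Zs hs S)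
    (hy : y ∈ Zs hs S) : x * y ∈ Zs hs S := by
  induction hx using Submodule.span_induction with
  | mem x hx =>
    obtain ⟨u, hu, rfl⟩ := hx
    induction hy using Submodule.span_induction with
    | mem y hy =>
      obtain ⟨v, hv, rfl⟩ := hy
      exact h.iter_mul_mem _ u v rfl hu hv
    | zero => simp
    | add a b _ _ ha hb => rw [mul_add]; exact add_mem ha hb
    | smul c a _ ha => rw [mul_smul_comm]; exact Submodule.smul_mem _ _ ha
  | zero => simp
  | add a b _ _ ha hb => rw [add_mul]; exact add_mem ha hb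
  | smul c a _ ha => rw [smul_mul_assoc]; exact Submodule.smul_mem _ _ ha

theorem IsInt.mem_Zs (h : IsInt hs) {S : Set R} {y : R} (hy : y ∈ S) : y ∈ Zs hs S := by
  obtain ⟨c, hc⟩ := h.one y
  have : y = hs 1 y + c • (1 : R) := by rw [hc]; ring
  rw [this]
  exact add_mem (hs_mem_Zs (one_mem_Zs S) hy) (Submodule.smul_mem _ _ (one_mem_Zs S))

theorem IsInt.prod_mem_Zs (h : IsInt hs) {S : Set R} {l : List R} (hl : ∀ y ∈ l, y ∈ S) :
    l.prod ∈ Zs hs S := by
  induction l with
  | nil => simpa using one_mem_Zs S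
  | cons y l ih =>
    rw [List.prod_cons]
    exact h.mul_mem_Zs (h.mem_Zs (hl y List.mem_cons_self))
      (ih fun t ht => hl t (List.mem_cons_of_mem _ ht))

/-- Polynomials in `z` with coefficients in the span of iterated integrals of `T`. -/
def Bs (hs : R →ₗ[ℚ] R →ₗ[ℚ] R) (z : R) (T : Set R) : Submodule ℚ R :=
  Submodule.span ℚ {x | ∃ (j : ℕ) (G : R), G ∈ Zs hs T ∧ z ^ j * G = x}

theorem mem_Bs {z : R} {T : Set R} (j : ℕ) {G : R} (hG : G ∈ Zs hs T) :
    z ^ j * G ∈ Bs hs z T := Submodule.subset_span ⟨j, G, hG, rfl⟩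

theorem mem_Bs' {z : R} {T : Set R} {G : R} (hG : G ∈ Zs hs T) : G ∈ Bs hs z T := by
  simpa using mem_Bs (z := z) 0 hG

theorem IsInt.hs_pow (h : IsInt hs) (z F : R) (j : ℕ) :
    hs F (z ^ (j + 1)) = ((j + 1 : ℕ) : ℚ) • hs (F * z ^ j) z := by
  induction j generalizing F with
  | zero => simp
  | succ j ih =>
    rw [pow_succ z (j + 1), h.leib, ih]
    have e : F * z * z ^ j = F * z ^ (j + 1) := by ring
    rw [e]
    push_cast
    module

/-- Integration by parts against a power of `z`. -/
theorem IsInt.parts (h : IsInt hs) (z K : R) (j : ℕ) : ∃ c : ℚ,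
    ((j + 1 : ℕ) : ℚ) • hs (z ^ j * K) z + hs (z ^ (j + 1)) K = z ^ (j + 1) * K - c • (1 : R) := by
  obtain ⟨c, hc⟩ := h.mul_eq K (z ^ (j + 1))
  refine ⟨c, ?_⟩
  rw [mul_comm (z ^ (j + 1)) K, hc, h.hs_pow, mul_comm K (z ^ j)]
  ring

theorem IsInt.key_step (h : IsInt hs) {z : R} {T : Set R}
    (hT : ∀ y ∈ T, hs y z - hs z y ∈ T) (j : ℕ)
    (ih : ∀ G ∈ Zs hs T, ∀ y ∈ T, hs (z ^ j * G) y ∈ Bs hs z T) :
    ∀ H ∈ Zs hs T, hs (z ^ (j + 1)) H ∈ Bs hs z T := by
  have star : ∀ G ∈ Zs hs T, ∀ y ∈ T,
      ((j + 1 : ℕ) : ℚ) • hs (z ^ (j + 1) * G) y + hs (z ^ (j + 1)) (G * y) ∈ Bs hs z T := by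
    intro G hG y hy
    have h1 := ih G hG _ (hT y hy)
    rw [map_sub, h.zin, h.zin] at h1
    obtain ⟨c, hc⟩ := h.parts z (G * y) j
    have hGy : G * y ∈ Zs hs T := h.mul_mem_Zs hG (h.mem_Zs hy)
    have e1 : z ^ j * G * y = z ^ j * (G * y) := by ring
    have e2 : z ^ j * G * z = z ^ (j + 1) * G := by ring
    rw [e1, e2] at h1
    have e : ((j + 1 : ℕ) : ℚ) • hs (z ^ (j + 1) * G) y + hs (z ^ (j + 1)) (G * y) =
        (z ^ (j + 1) * (G * y) - c • (1 : R)) -
          ((j + 1 : ℕ) : ℚ) • (hs (z ^ j * (G * y)) z - hs (z ^ (j + 1) * G) y) := by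
      rw [← hc]; module
    rw [e]
    exact sub_mem (sub_mem (mem_Bs _ hGy) (Submodule.smul_mem _ _ (mem_Bs' (one_mem_Zs T))))
      (Submodule.smul_mem _ _ h1)
  have star2 : ∀ l : List R, (∀ y ∈ l, y ∈ T) → ∀ G ∈ Zs hs T,
      ((j + 1 : ℕ) : ℚ) • hs (z ^ (j + 1) * G) l.prod +
        ((l.length : ℕ) : ℚ) • hs (z ^ (j + 1)) (G * l.prod) ∈ Bs hs z T := by
    intro l
    induction l with
    | nil => intro _ G _; simp [h.hs_one]
    | cons y l ihl =>
      intro hl G hG
      have hy := hl y List.mem_cons_self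
      have hl' : ∀ t ∈ l, t ∈ T := fun t ht => hl t (List.mem_cons_of_mem _ ht)
      have h1 := star (G * l.prod) (h.mul_mem_Zs hG (h.prod_mem_Zs hl')) y hy
      have h2 := ihl hl' (G * y) (h.mul_mem_Zs hG (h.mem_Zs hy))
      rw [List.prod_cons, h.leib]
      have e1 : z ^ (j + 1) * (G * l.prod) = z ^ (j + 1) * G * l.prod := by ring
      have e2 : G * l.prod * y = G * (y * l.prod) := by ring
      have e3 : z ^ (j + 1) * (G * y) = z ^ (j + 1) * G * y := by ring
      have e4 : G * y * l.prod = G * (y * l.prod) := by ring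
      rw [e1, e2] at h1
      rw [e3, e4] at h2
      have := add_mem h1 h2
      convert this using 1
      simp only [List.length_cons]
      push_cast
      module
  have main : ∀ u : List R, (∀ y ∈ u, y ∈ T) → ∀ l : List R, (∀ y ∈ l, y ∈ T) →
      hs (z ^ (j + 1)) (iter hs u * l.prod) ∈ Bs hs z T := by
    intro u
    induction u with
    | nil =>
      intro _ l hl
      have h1 := star2 l hl 1 (one_mem_Zs T)
      simp only [mul_one, one_mul, ← add_smul] at h1
      have hne : (((j + 1 : ℕ) : ℚ) + ((l.length : ℕ) : ℚ)) ≠ 0 := by positivity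
      simpa [iter] using (Submodule.smul_mem_iff _ hne).mp h1
    | cons y u ihu =>
      intro hu l hl
      have hy := hu y List.mem_cons_self
      have hu' : ∀ t ∈ u, t ∈ T := fun t ht => hu t (List.mem_cons_of_mem _ ht)
      have h1 := star2 l hl (iter hs (y :: u)) (iter_mem hu)
      have h2 := star (iter hs u * l.prod) (h.mul_mem_Zs (iter_mem hu') (h.prod_mem_Zs hl)) y hy
      have h3 := ihu hu' (y :: l) (by
        intro t ht
        rcases List.mem_cons.mp ht with rfl | ht
        · exact hy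
        · exact hl t ht)
      have e0 : hs (z ^ (j + 1)) (iter hs (y :: u) * l.prod) =
          hs (z ^ (j + 1) * iter hs (y :: u)) l.prod +
            hs (z ^ (j + 1) * (iter hs u * l.prod)) y := by
        rw [h.leib]
        congr 1
        rw [show iter hs (y :: u) = hs (iter hs u) y from rfl, h.zin]
        congr 2
        ring
      have e1 : iter hs u * (y :: l).prod = iter hs u * l.prod * y := by
        rw [List.prod_cons]; ring
      rw [e1] at h3
      have hne : (((j + 1 : ℕ) : ℚ) + ((l.length : ℕ) : ℚ)) ≠ 0 := by positivity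
      refine (Submodule.smul_mem_iff _ hne).mp ?_
      have := sub_mem (add_mem h1 h2) h3
      convert this using 1
      rw [add_smul]
      conv_lhs => rw [e0]
      rw [← e0]
      conv_lhs => arg 1; rw [e0]
      module
  intro H hH
  induction hH using Submodule.span_induction with
  | mem x hx =>
    obtain ⟨u, hu, rfl⟩ := hx
    simpa using main u hu [] (by simp)
  | zero => simp
  | add a b _ _ ha hb => rw [map_add]; exact add_mem ha hb
  | smul c a _ ha => rw [map_smul]; exact Submodule.smul_mem _ _ ha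

theorem IsInt.key_all (h : IsInt hs) {z : R} {T : Set R}
    (hT : ∀ y ∈ T, hs y z - hs z y ∈ T) (j : ℕ) :
    ∀ G ∈ Zs hs T, ∀ y ∈ T, hs (z ^ j * G) y ∈ Bs hs z T := by
  induction j with
  | zero => intro G hG y hy; simpa using mem_Bs' (hs_mem_Zs hG hy)
  | succ j ih =>
    intro G hG y hy
    rw [← h.zin]
    exact h.key_step hT j ih _ (hs_mem_Zs hG hy)

/-- One elimination step: if `T` is closed under taking the area with `z`, then every iterated
integral of elements of `T` and `z` is a polynomial in `z` over iterated integrals of `T`. -/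
theorem IsInt.key (h : IsInt hs) {z : R} {T : Set R}
    (hT : ∀ y ∈ T, hs y z - hs z y ∈ T) : Zs hs (insert z T) ≤ Bs hs z T := by
  refine Zs_le (mem_Bs' (one_mem_Zs T)) ?_
  intro F hF y hy
  induction hF using Submodule.span_induction with
  | mem x hx =>
    obtain ⟨j, G, hG, rfl⟩ := hx
    rcases hy with rfl | hy
    · obtain ⟨c, hc⟩ := h.parts y G j
      have hne : ((j + 1 : ℕ) : ℚ) ≠ 0 := by positivity
      refine (Submodule.smul_mem_iff _ hne).mp ?_
      have e : ((j + 1 : ℕ) : ℚ) • hs (y ^ j * G) y =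
          (y ^ (j + 1) * G - c • (1 : R)) - hs (y ^ (j + 1)) G := by
        rw [← hc]; module
      rw [e]
      exact sub_mem (sub_mem (mem_Bs _ hG) (Submodule.smul_mem _ _ (mem_Bs' (one_mem_Zs T))))
        (h.key_step hT j (h.key_all hT j) G hG)
    · exact h.key_all hT j G hG y hy
  | zero => simp
  | add a b _ _ ha hb => rw [map_add, LinearMap.add_apply]; exact add_mem ha hb
  | smul c a _ ha => rw [map_smul, LinearMap.smul_apply]; exact Submodule.smul_mem _ _ ha

end Pool.Agent.P.MP_9504dd_al
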