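import Mathlib
import Pool.Agent.P.MP_9504dd_al.Key

set_option autoImplicit false

/-
The shuffle product on words, given by its recursion: commutativity, associativity, grading, and the
identities of the half shuffle.
-/

namespace Pool.Agent.P.MP_9504dd_al

variable {α : Type*}

/-- Appending a letter, as a linear map. -/
noncomputable def app (a : α) : (List α →₀ ℚ) →ₗ[ℚ] (List α →₀ ℚ) :=
  Finsupp.lmapDomain ℚ ℚ (fun w : List α => w ++ [a])

theorem app_apply (a : α) (x : List α →₀ ℚ) :
    app a x = Finsupp.mapDomain (fun w : List α => w ++ [a]) x := rfl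

theorem app_single (a : α) (w : List α) (c : ℚ) :
    app a (Finsupp.single w c) = Finsupp.single (w ++ [a]) c := by
  simp [app_apply]

/-- The shuffle and half shuffle, as data with their defining recursions. -/
structure ShData (α : Type*) where
  sh : (List α →₀ ℚ) →ₗ[ℚ] (List α →₀ ℚ) →ₗ[ℚ] (List α →₀ ℚ)
  hs : (List α →₀ ℚ) →ₗ[ℚ] (List α →₀ ℚ) →ₗ[ℚ] (List α →₀ ℚ)
  one_sh : ∀ x, sh (Finsupp.single [] 1) x = x
  sh_one : ∀ x, sh x (Finsupp.single [] 1) = x
  sh_rec : ∀ (u v : List α) (a b : α),
    sh (Finsupp.single (u ++ [a]) 1) (Finsupp.single (v ++ [b]) 1) =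
      app a (sh (Finsupp.single u 1) (Finsupp.single (v ++ [b]) 1)) +
        app b (sh (Finsupp.single (u ++ [a]) 1) (Finsupp.single v 1))
  hs_nil : ∀ x, hs x (Finsupp.single [] 1) = 0
  hs_rec : ∀ (x : List α →₀ ℚ) (v : List α) (b : α),
    hs x (Finsupp.single (v ++ [b]) 1) = app b (sh x (Finsupp.single v 1))

theorem fs_ind {P : (List α →₀ ℚ) → Prop} (h0 : P 0) (hadd : ∀ x y, P x → P y → P (x + y))
    (hsmul : ∀ (c : ℚ) x, P x → P (c • x)) (hs : ∀ w, P (Finsupp.single w 1)) (x : List α →₀ ℚ) :
    P x := by
  induction x using Finsupp.induction_linear with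
  | zero => exact h0
  | add f g hf hg => exact hadd f g hf hg
  | single w c =>
    have : Finsupp.single w c = c • Finsupp.single w (1 : ℚ) := by simp
    rw [this]; exact hsmul _ _ (hs w)

namespace ShData

variable (D : ShData α)

theorem sh_app (a b : α) (x y : List α →₀ ℚ) :
    D.sh (app a x) (app b y) = app a (D.sh x (app b y)) + app b (D.sh (app a x) y) := by
  induction x using fs_ind with
  | h0 => simp
  | hadd x x' h h' => simp only [map_add, LinearMap.add_apply, h, h']; abel
  | hsmul c x h => simp only [map_smul, LinearMap.smul_apply, h, smul_add]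
  | hs u =>
    induction y using fs_ind with
    | h0 => simp
    | hadd x x' h h' => simp only [map_add, h, h']; abel
    | hsmul c x h => simp only [map_smul, h, smul_add]
    | hs v => simp only [app_single]; exact D.sh_rec u v a b

theorem hs_app (b : α) (x y : List α →₀ ℚ) : D.hs x (app b y) = app b (D.sh x y) := by
  induction y using fs_ind with
  | h0 => simp
  | hadd x x' h h' => simp only [map_add, h, h']
  | hsmul c x h => simp only [map_smul, h]
  | hs v => simp only [app_single]; exact D.hs_rec x v b

theorem comm_single : ∀ (n : ℕ) (u v : List α), u.length + v.length = n →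
    D.sh (Finsupp.single u 1) (Finsupp.single v 1) =
      D.sh (Finsupp.single v 1) (Finsupp.single u 1) := by
  intro n
  induction n with
  | zero =>
    intro u v h
    have : u = [] := List.length_eq_zero_iff.mp (by omega)
    subst this
    rw [D.one_sh, D.sh_one]
  | succ n ih =>
    intro u v h
    rcases List.eq_nil_or_concat' u with rfl | ⟨u, a, rfl⟩
    · rw [D.one_sh, D.sh_one]
    rcases List.eq_nil_or_concat' v with rfl | ⟨v, b, rfl⟩
    · rw [D.one_sh, D.sh_one]
    simp only [List.length_append, List.length_singleton] at h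
    rw [D.sh_rec, D.sh_rec, ih u (v ++ [b]) (by simp; omega), ih (u ++ [a]) v (by simp; omega),
      add_comm]

theorem comm (x y : List α →₀ ℚ) : D.sh x y = D.sh y x := by
  induction x using fs_ind with
  | h0 => simp
  | hadd x x' h h' => simp only [map_add, LinearMap.add_apply, h, h']
  | hsmul c x h => simp only [map_smul, LinearMap.smul_apply, h]
  | hs u =>
    induction y using fs_ind with
    | h0 => simp
    | hadd x x' h h' => simp only [map_add, LinearMap.add_apply, h, h']
    | hsmul c x h => simp only [map_smul, LinearMap.smul_apply, h]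
    | hs v => exact D.comm_single _ u v rfl

theorem assoc_single : ∀ (n : ℕ) (u v w : List α), u.length + v.length + w.length = n →
    D.sh (D.sh (Finsupp.single u 1) (Finsupp.single v 1)) (Finsupp.single w 1) =
      D.sh (Finsupp.single u 1) (D.sh (Finsupp.single v 1) (Finsupp.single w 1)) := by
  intro n
  induction n with
  | zero =>
    intro u v w h
    have : u = [] := List.length_eq_zero_iff.mp (by omega)
    subst this
    rw [D.one_sh, D.one_sh]
  | succ n ih =>
    intro u v w h
    rcases List.eq_nil_or_concat' u with rfl | ⟨u, a, rfl⟩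
    · rw [D.one_sh, D.one_sh]
    rcases List.eq_nil_or_concat' v with rfl | ⟨v, b, rfl⟩
    · rw [D.one_sh, D.sh_one]
    rcases List.eq_nil_or_concat' w with rfl | ⟨w, c, rfl⟩
    · rw [D.sh_one, D.sh_one]
    simp only [List.length_append, List.length_singleton] at h
    have h1 := ih u (v ++ [b]) (w ++ [c]) (by simp; omega)
    have h2 := ih (u ++ [a]) v (w ++ [c]) (by simp; omega)
    have h3 := ih (u ++ [a]) (v ++ [b]) w (by simp; omega)
    simp only [← app_single] at h1 h2 h3 ⊢
    set x : List α →₀ ℚ := Finsupp.single u 1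
    set y : List α →₀ ℚ := Finsupp.single v 1
    set z : List α →₀ ℚ := Finsupp.single w 1
    have l : D.sh (D.sh (app a x) (app b y)) (app c z) =
        app a (D.sh (D.sh x (app b y)) (app c z)) + app b (D.sh (D.sh (app a x) y) (app c z)) +
          app c (D.sh (D.sh (app a x) (app b y)) z) := by
      rw [D.sh_app a b x y]
      simp only [map_add, LinearMap.add_apply, D.sh_app]
      abel
    have r : D.sh (app a x) (D.sh (app b y) (app c z)) =
        app a (D.sh x (D.sh (app b y) (app c z))) + app b (D.sh (app a x) (D.sh y (app c z))) +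
          app c (D.sh (app a x) (D.sh (app b y) z)) := by
      rw [D.sh_app b c y z]
      simp only [map_add, D.sh_app]
      abel
    rw [l, r, h1, h2, h3]

theorem assoc (x y z : List α →₀ ℚ) : D.sh (D.sh x y) z = D.sh x (D.sh y z) := by
  induction x using fs_ind with
  | h0 => simp
  | hadd x x' h h' => simp only [map_add, LinearMap.add_apply, h, h']
  | hsmul c x h => simp only [map_smul, LinearMap.smul_apply, h]
  | hs u =>
    induction y using fs_ind with
    | h0 => simp
    | hadd x x' h h' => simp only [map_add, LinearMap.add_apply, h, h']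
    | hsmul c x h => simp only [map_smul, LinearMap.smul_apply, h]
    | hs v =>
      induction z using fs_ind with
      | h0 => simp
      | hadd x x' h h' => simp only [map_add, h, h']
      | hsmul c x h => simp only [map_smul, h]
      | hs w => exact D.assoc_single _ u v w rfl

theorem zin (F G w : List α →₀ ℚ) : D.hs F (D.hs G w) = D.hs (D.sh F G) w := by
  induction w using fs_ind with
  | h0 => simp
  | hadd x x' h h' => simp only [map_add, h, h']
  | hsmul c x h => simp only [map_smul, h]
  | hs v =>
    rcases List.eq_nil_or_concat' v with rfl | ⟨v, b, rfl⟩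
    · simp [D.hs_nil]
    · rw [D.hs_rec, D.hs_rec, D.hs_app, D.assoc]

theorem leib (F G H : List α →₀ ℚ) :
    D.hs F (D.sh G H) = D.hs (D.sh F G) H + D.hs (D.sh F H) G := by
  induction G using fs_ind with
  | h0 => simp
  | hadd x x' h h' => simp only [map_add, LinearMap.add_apply, h, h']; abel
  | hsmul c x h => simp only [map_smul, LinearMap.smul_apply, h, smul_add]
  | hs u =>
    induction H using fs_ind with
    | h0 => simp
    | hadd x x' h h' => simp only [map_add, LinearMap.add_apply, h, h']; abel
    | hsmul c x h => simp only [map_smul, LinearMap.smul_apply, h, smul_add]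
    | hs v =>
      rcases List.eq_nil_or_concat' u with rfl | ⟨u, a, rfl⟩
      · simp [D.hs_nil, D.one_sh, D.sh_one]
      rcases List.eq_nil_or_concat' v with rfl | ⟨v, b, rfl⟩
      · simp [D.hs_nil, D.sh_one]
      rw [D.sh_rec, map_add, D.hs_app, D.hs_app, D.hs_rec, D.hs_rec, D.assoc, D.assoc,
        D.comm (Finsupp.single (v ++ [b]) 1), add_comm]

theorem one_hs (x : List α →₀ ℚ) :
    ∃ c : ℚ, D.hs (Finsupp.single [] 1) x = x - c • Finsupp.single [] 1 := by
  induction x using fs_ind with
  | h0 => exact ⟨0, by simp⟩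
  | hadd x x' h h' =>
    obtain ⟨c, h⟩ := h
    obtain ⟨c', h'⟩ := h'
    exact ⟨c + c', by rw [map_add, h, h', add_smul]; abel⟩
  | hsmul c x h =>
    obtain ⟨c', h⟩ := h
    exact ⟨c * c', by rw [map_smul, h, smul_sub, mul_smul]⟩
  | hs v =>
    rcases List.eq_nil_or_concat' v with rfl | ⟨v, b, rfl⟩
    · exact ⟨1, by simp [D.hs_nil]⟩
    · exact ⟨0, by rw [D.hs_rec, D.one_sh, app_single]; simp⟩

/-- The words span, viewed as the shuffle algebra. -/
def Car (_D : ShData α) : Type _ := List α →₀ ℚ

noncomputable instance : AddCommGroup D.Car := inferInstanceAs (AddCommGroup (List α →₀ ℚ))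

noncomputable instance : Module ℚ D.Car := inferInstanceAs (Module ℚ (List α →₀ ℚ))

noncomputable instance : CommRing D.Car :=
  { (inferInstance : AddCommGroup D.Car) with
    mul := fun x y => D.sh x y
    one := Finsupp.single [] 1
    left_distrib := fun x y z => map_add (D.sh x) y z
    right_distrib := fun x y z => by
      change D.sh (x + y) z = D.sh x z + D.sh y z
      exact LinearMap.map_add₂ D.sh x y z
    zero_mul := fun x => LinearMap.map_zero₂ D.sh x
    mul_zero := fun x => map_zero (D.sh x)
    mul_assoc := D.assoc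
    one_mul := D.one_sh
    mul_one := D.sh_one
    mul_comm := D.comm }

noncomputable instance : Algebra ℚ D.Car :=
  Algebra.ofModule (fun c x y => LinearMap.map_smul₂ D.sh c x y)
    (fun c x y => map_smul (D.sh x) c y)

/-- The half shuffle on the shuffle algebra. -/
noncomputable def hsC : D.Car →ₗ[ℚ] D.Car →ₗ[ℚ] D.Car := D.hs

theorem isInt : IsInt D.hsC := ⟨D.leib, D.zin, D.one_hs⟩

end ShData

/-- Span of the words whose length satisfies `p`. -/
noncomputable def Len (α : Type*) (p : ℕ → Prop) : Submodule ℚ (List α →₀ ℚ) :=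
  Finsupp.supported ℚ ℚ {w : List α | p w.length}

theorem single_mem_Len {p : ℕ → Prop} {w : List α} (h : p w.length) :
    Finsupp.single w (1 : ℚ) ∈ Len α p := Finsupp.single_mem_supported ℚ _ h

theorem Len_ind {p : ℕ → Prop} {P : (List α →₀ ℚ) → Prop} (h0 : P 0)
    (hadd : ∀ x y, P x → P y → P (x + y))
    (hsmul : ∀ (c : ℚ) x, P x → P (c • x)) (hs : ∀ w, p w.length → P (Finsupp.single w 1))
    {x : List α →₀ ℚ} (hx : x ∈ Len α p) : P x := by
  rw [Len, Finsupp.supported_eq_span_single] at hx
  induction hx using Submodule.span_induction with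
  | mem x hx => obtain ⟨w, hw, rfl⟩ := hx; exact hs w hw
  | zero => exact h0
  | add a b _ _ ha hb => exact hadd a b ha hb
  | smul c a _ ha => exact hsmul c a ha

theorem Len_mono {p q : ℕ → Prop} (h : ∀ n, p n → q n) : Len α p ≤ Len α q :=
  Finsupp.supported_mono fun _ hw => h _ hw

theorem mem_Len_true (x : List α →₀ ℚ) : x ∈ Len α (fun _ => True) := by
  simp [Len]

theorem app_mem_Len {n : ℕ} (a : α) {x : List α →₀ ℚ} (hx : x ∈ Len α (· = n)) :
    app a x ∈ Len α (· = n + 1) := by
  refine Len_ind (P := fun x => app a x ∈ Len α (· = n + 1)) (by simp) ?_ ?_ ?_ hx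
  · intro x y hx hy; rw [map_add]; exact add_mem hx hy
  · intro c x hx; rw [map_smul]; exact Submodule.smul_mem _ _ hx
  · intro w hw; rw [app_single]; exact single_mem_Len (by simpa using hw)

namespace ShData

variable (D : ShData α)

theorem sh_single_mem : ∀ (n : ℕ) (u v : List α), u.length + v.length = n →
    D.sh (Finsupp.single u 1) (Finsupp.single v 1) ∈ Len α (· = n) := by
  intro n
  induction n with
  | zero =>
    intro u v h
    have : u = [] := List.length_eq_zero_iff.mp (by omega)
    subst this
    rw [D.one_sh]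
    exact single_mem_Len (by simpa using h)
  | succ n ih =>
    intro u v h
    rcases List.eq_nil_or_concat' u with rfl | ⟨u, a, rfl⟩
    · rw [D.one_sh]; exact single_mem_Len (by simpa using h)
    rcases List.eq_nil_or_concat' v with rfl | ⟨v, b, rfl⟩
    · rw [D.sh_one]; exact single_mem_Len (by simpa using h)
    simp only [List.length_append, List.length_singleton] at h
    rw [D.sh_rec]
    exact add_mem (app_mem_Len a (ih _ _ (by simp; omega))) (app_mem_Len b (ih _ _ (by simp; omega)))

theorem hs_single_mem (u v : List α) :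
    D.hs (Finsupp.single u 1) (Finsupp.single v 1) ∈ Len α (· = u.length + v.length) := by
  rcases List.eq_nil_or_concat' v with rfl | ⟨v, b, rfl⟩
  · rw [D.hs_nil]; exact zero_mem _
  · rw [D.hs_rec]
    simpa [← add_assoc] using app_mem_Len b (D.sh_single_mem _ u v rfl)

theorem bil_mem (f : (List α →₀ ℚ) →ₗ[ℚ] (List α →₀ ℚ) →ₗ[ℚ] (List α →₀ ℚ))
    (hf : ∀ u v : List α,
      f (Finsupp.single u 1) (Finsupp.single v 1) ∈ Len α (· = u.length + v.length))
    {p q s : ℕ → Prop} (h : ∀ m n, p m → q n → s (m + n)) {x y : List α →₀ ℚ}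
    (hx : x ∈ Len α p) (hy : y ∈ Len α q) : f x y ∈ Len α s := by
  refine Len_ind (P := fun x => f x y ∈ Len α s) (by simp) ?_ ?_ ?_ hx
  · intro x y hx hy; rw [map_add, LinearMap.add_apply]; exact add_mem hx hy
  · intro c x hx; rw [map_smul, LinearMap.smul_apply]; exact Submodule.smul_mem _ _ hx
  · intro u hu
    refine Len_ind (P := fun y => f (Finsupp.single u 1) y ∈ Len α s) (by simp) ?_ ?_ ?_ hy
    · intro x y hx hy; rw [map_add]; exact add_mem hx hy
    · intro c x hx; rw [map_smul]; exact Submodule.smul_mem _ _ hx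
    · intro v hv
      exact Len_mono (fun n hn => by rw [hn]; exact h _ _ hu hv) (hf u v)

theorem sh_mem {p q s : ℕ → Prop} (h : ∀ m n, p m → q n → s (m + n)) {x y : List α →₀ ℚ}
    (hx : x ∈ Len α p) (hy : y ∈ Len α q) : D.sh x y ∈ Len α s :=
  bil_mem D.sh (fun u v => D.sh_single_mem _ u v rfl) h hx hy

theorem hs_mem {p q s : ℕ → Prop} (h : ∀ m n, p m → q n → s (m + n)) {x y : List α →₀ ℚ}
    (hx : x ∈ Len α p) (hy : y ∈ Len α q) : D.hs x y ∈ Len α s :=
  bil_mem D.hs D.hs_single_mem h hx hy

end ShData

end Pool.Agent.P.MP_9504dd_al
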