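import Mathlib
import Pool.Agent.P.MP_9504dd_al.Shuffle

set_option autoImplicit false

/-
Hall sets: uniqueness of the factorisation into non-increasing Hall trees, and generation of the
shuffle algebra by Hall areas through successive elimination of the largest Hall tree.
-/

namespace Pool.Agent.P.MP_9504dd_al

variable {α : Type*}

/-- A Hall set with its order. -/
structure IsHall (H : Set (FreeMagma α)) (r : FreeMagma α → FreeMagma α → Prop) : Prop where
  sto : IsStrictTotalOrder (FreeMagma α) r
  of_mem : ∀ a : α, FreeMagma.of a ∈ H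
  right : ∀ t' t'' : FreeMagma α, t' * t'' ∈ H → t'' ∈ H ∧ r (t' * t'') t''
  mul_iff : ∀ t' t'' : FreeMagma α, t' * t'' ∈ H ↔
      (t' ∈ H ∧ t'' ∈ H ∧ r t' t'' ∧
        ((∃ a : α, t' = FreeMagma.of a) ∨ ∃ u v : FreeMagma α, t' = u * v ∧ ¬ r v t''))

/-- The word of leaves of a tree. -/
def fol : FreeMagma α → List α
  | FreeMagma.of a => [a]
  | FreeMagma.mul x y => fol x ++ fol y

theorem fol_of (a : α) : fol (FreeMagma.of a) = [a] := rfl

theorem fol_mul (x y : FreeMagma α) : fol (x * y) = fol x ++ fol y := rfl

theorem length_fol (t : FreeMagma α) : (fol t).length = t.length := by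
  induction t with
  | ih1 a => rfl
  | ih2 x y hx hy => rw [fol_mul, List.length_append, hx, hy]; rfl

open Classical in
/-- Insert a tree in front of a list of trees, merging while there is a rise. -/
noncomputable def ins (r : FreeMagma α → FreeMagma α → Prop) :
    FreeMagma α → List (FreeMagma α) → List (FreeMagma α)
  | t, [] => [t]
  | t, s :: l => if r t s then ins r (t * s) l else t :: s :: l

/-- Insert the letters of a word from right to left. -/
noncomputable def insW (r : FreeMagma α → FreeMagma α → Prop) (w : List α)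
    (l : List (FreeMagma α)) : List (FreeMagma α) :=
  w.foldr (fun a acc => ins r (FreeMagma.of a) acc) l

theorem ins_of_not {r : FreeMagma α → FreeMagma α → Prop} {t : FreeMagma α}
    {l : List (FreeMagma α)} (h : ∀ s ∈ l.head?, ¬ r t s) : ins r t l = t :: l := by
  cases l with
  | nil => rfl
  | cons s l => simp [ins, h s (by simp)]

variable {H : Set (FreeMagma α)} {r : FreeMagma α → FreeMagma α → Prop}

theorem mul_inj {u v u' v' : FreeMagma α} (h : u * v = u' * v') : u = u' ∧ v = v' := by
  cases h; exact ⟨rfl, rfl⟩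

theorem of_ne_mul {a : α} {u v : FreeMagma α} : FreeMagma.of a ≠ u * v := by
  intro h; cases h

theorem IsHall.insW_fol (hH : IsHall H r) (t : FreeMagma α) : t ∈ H →
    ∀ l : List (FreeMagma α), (∀ u v, t = u * v → ∀ s ∈ l.head?, ¬ r v s) →
      insW r (fol t) l = ins r t l := by
  have := hH.sto
  induction t with
  | ih1 a => intro _ l _; rfl
  | ih2 x y hx hy =>
    intro ht l hl
    obtain ⟨hxH, hyH, hxy, hc⟩ := (hH.mul_iff x y).mp ht
    have hl' := hl x y rfl
    have e1 : insW r (fol y) l = y :: l := by
      rw [hy hyH l, ins_of_not hl']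
      intro u v huv s hs hvs
      subst huv
      exact hl' s hs (_root_.trans (hH.right u v hyH).2 hvs)
    have e2 : insW r (fol (x * y)) l = insW r (fol x) (insW r (fol y) l) := by
      simp [insW, fol_mul, List.foldr_append]
    rw [e2, e1, hx hxH (y :: l)]
    · simp [ins, hxy]
    · intro u v huv s hs
      simp only [List.head?_cons, Option.mem_def, Option.some.injEq] at hs
      subst hs
      rcases hc with ⟨a, ha⟩ | ⟨u', v', h', hv'⟩
      · rw [ha] at huv; exact absurd huv of_ne_mul
      · rw [h'] at huv
        rw [← (mul_inj huv).2]; exact hv'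

theorem IsHall.insW_flat (hH : IsHall H r) (L : List (FreeMagma α)) (hL : ∀ t ∈ L, t ∈ H)
    (hp : L.Pairwise (fun x y => ¬ r x y)) : insW r (L.flatMap fol) [] = L := by
  have := hH.sto
  induction L with
  | nil => rfl
  | cons t l ih =>
    have ht := hL t List.mem_cons_self
    rw [List.pairwise_cons] at hp
    have e : insW r ((t :: l).flatMap fol) [] = insW r (fol t) (insW r (l.flatMap fol) []) := by
      simp [insW, List.foldr_append]
    have hh : ∀ s ∈ l.head?, ¬ r t s := fun s hs => hp.1 s (List.mem_of_mem_head? hs)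
    rw [e, ih (fun s hs => hL s (List.mem_cons_of_mem _ hs)) hp.2, hH.insW_fol t ht l,
      ins_of_not hh]
    intro u v huv s hs hvs
    subst huv
    exact hh s hs (_root_.trans (hH.right u v ht).2 hvs)

theorem IsHall.finite_le [Finite α] (hH : IsHall H r) (N : ℕ) :
    {t | t ∈ H ∧ t.length ≤ N}.Finite := by
  refine Set.Finite.of_finite_image (f := fol) ((List.finite_length_le α N).subset ?_) ?_
  · rintro _ ⟨t, ht, rfl⟩
    simpa [length_fol] using ht.2
  · intro s hs t ht hst
    have h1 := hH.insW_flat [s] (by simpa using hs.1) (by simp)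
    have h2 := hH.insW_flat [t] (by simpa using ht.1) (by simp)
    simp only [List.flatMap_cons, List.flatMap_nil, List.append_nil] at h1 h2
    rw [hst, h2] at h1
    simpa using h1.symm

theorem IsHall.exists_max (hH : IsHall H r) (C : Finset (FreeMagma α)) (hC : C.Nonempty) :
    ∃ z ∈ C, ∀ h ∈ C, ¬ r z h := by
  have := hH.sto
  induction hC using Finset.Nonempty.cons_induction with
  | singleton a => exact ⟨a, by simp, by simpa using irrefl_of r a⟩
  | cons a s ha hs ih =>
    obtain ⟨z, hz, hmax⟩ := ih
    by_cases hza : r z a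
    · refine ⟨a, by simp, ?_⟩
      intro h hh
      rcases Finset.mem_cons.mp hh with rfl | hh
      · exact irrefl_of r _
      · exact fun hah => hmax h hh (_root_.trans hza hah)
    · refine ⟨z, Finset.mem_cons.mpr (Or.inr hz), ?_⟩
      intro h hh
      rcases Finset.mem_cons.mp hh with rfl | hh
      · exact hza
      · exact hmax h hh

/-- The area map on trees. -/
structure IsArea (D : ShData α) (ar : FreeMagma α → D.Car) : Prop where
  of : ∀ a : α, ar (FreeMagma.of a) = Finsupp.single [a] 1
  mul : ∀ x y : FreeMagma α, ar (x * y) = D.hsC (ar x) (ar y) - D.hsC (ar y) (ar x)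

variable {D : ShData α} {ar : FreeMagma α → D.Car}

/-- The length filtration on the shuffle algebra. -/
noncomputable def LenC (D : ShData α) (p : ℕ → Prop) : Submodule ℚ D.Car := Len α p

theorem IsArea.mem (hA : IsArea D ar) (t : FreeMagma α) : ar t ∈ LenC D (· = t.length) := by
  induction t with
  | ih1 a => rw [hA.of]; exact single_mem_Len rfl
  | ih2 x y hx hy =>
    rw [hA.mul]
    refine sub_mem (D.hs_mem ?_ hx hy) (D.hs_mem ?_ hy hx)
    · rintro m n rfl rfl; rfl
    · rintro m n rfl rfl; exact add_comm _ _

/-- Span of the products of Hall areas. -/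
noncomputable def Mon (H : Set (FreeMagma α)) (ar : FreeMagma α → D.Car) : Submodule ℚ D.Car :=
  Submodule.span ℚ {x | ∃ l : List (FreeMagma α), (∀ t ∈ l, t ∈ H) ∧ (l.map ar).prod = x}

theorem one_mem_Mon : (1 : D.Car) ∈ Mon H ar := Submodule.subset_span ⟨[], by simp, by simp⟩

theorem mul_mem_Mon {z : FreeMagma α} (hz : z ∈ H) {x : D.Car} (hx : x ∈ Mon H ar) :
    ar z * x ∈ Mon H ar := by
  induction hx using Submodule.span_induction with
  | mem x hx =>
    obtain ⟨l, hl, rfl⟩ := hx
    refine Submodule.subset_span ⟨z :: l, ?_, by simp⟩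
    intro t ht
    rcases List.mem_cons.mp ht with rfl | ht
    · exact hz
    · exact hl t ht
  | zero => simp
  | add a b _ _ ha hb => rw [mul_add]; exact add_mem ha hb
  | smul c a _ ha => rw [mul_smul_comm]; exact Submodule.smul_mem _ _ ha

theorem mul_mem_big (N : ℕ) (x : D.Car) {y : D.Car} (hy : y ∈ LenC D (N < ·)) :
    x * y ∈ LenC D (N < ·) :=
  D.sh_mem (p := fun _ => True) (fun _ _ _ h => by omega) (mem_Len_true x) hy

theorem hs_mem_big (N : ℕ) (x : D.Car) {y : D.Car} (hy : y ∈ LenC D (N < ·)) :
    D.hsC x y ∈ LenC D (N < ·) :=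
  D.hs_mem (p := fun _ => True) (fun _ _ _ h => by omega) (mem_Len_true x) hy

theorem hs_mem_big' (N : ℕ) (x : D.Car) {y : D.Car} (hy : y ∈ LenC D (N < ·)) :
    D.hsC y x ∈ LenC D (N < ·) :=
  D.hs_mem (q := fun _ => True) (fun _ _ h _ => by omega) hy (mem_Len_true x)

/-- The alphabet left after eliminating every Hall tree of size at most `N` outside `C`. -/
def Alph (ar : FreeMagma α → D.Car) (N : ℕ) (C : Finset (FreeMagma α)) : Set D.Car :=
  {x | (∃ h ∈ C, (∀ u v, h = u * v → v ∉ C) ∧ ar h = x) ∨ x ∈ LenC D (N < ·)}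

theorem IsHall.stage (hH : IsHall H r) (hA : IsArea D ar) (N : ℕ) :
    ∀ (n : ℕ) (C : Finset (FreeMagma α)), C.card = n → (∀ h ∈ C, h ∈ H ∧ h.length ≤ N) →
      (∀ h ∈ C, ∀ g ∈ H, g.length ≤ N → r g h → g ∈ C) →
      Zs D.hsC (Alph ar N C) ≤ Mon H ar ⊔ LenC D (N < ·) := by
  classical
  have := hH.sto
  intro n
  induction n with
  | zero =>
    intro C hC _ _
    rw [Finset.card_eq_zero] at hC
    subst hC
    refine Zs_le (Submodule.mem_sup_left one_mem_Mon) ?_
    rintro G _ y (⟨h, hh, _⟩ | hy)
    · simp at hh
    · exact Submodule.mem_sup_right (hs_mem_big N G hy)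
  | succ n ih =>
    intro C hC hmem hlow
    obtain ⟨z, hz, hmax⟩ := hH.exists_max C (Finset.card_pos.mp (by omega))
    have hlt : ∀ h ∈ C.erase z, r h z := by
      intro h hh
      obtain ⟨hne, hh⟩ := Finset.mem_erase.mp hh
      rcases trichotomous_of r h z with h1 | h1 | h1
      · exact h1
      · exact absurd h1 hne
      · exact absurd h1 (hmax h hh)
    have hin : ∀ g ∈ H, g.length ≤ N → r g z → g ∈ C.erase z := by
      intro g hg hgN hgz
      refine Finset.mem_erase.mpr ⟨?_, hlow z hz g hg hgN hgz⟩
      rintro rfl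
      exact irrefl_of r _ hgz
    have h1 := ih (C.erase z) (by rw [Finset.card_erase_of_mem hz]; omega)
      (fun h hh => hmem h (Finset.mem_of_mem_erase hh))
      (fun h hh g hg hgN hgh => hin g hg hgN (_root_.trans hgh (hlt h hh)))
    have hsub : Alph ar N C ⊆ insert (ar z) (Alph ar N (C.erase z)) := by
      rintro x (⟨h, hh, hc, rfl⟩ | hx)
      · by_cases hhz : h = z
        · left; rw [hhz]
        · right; left
          exact ⟨h, Finset.mem_erase.mpr ⟨hhz, hh⟩,
            fun u v huv hv => hc u v huv (Finset.mem_of_mem_erase hv), rfl⟩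
      · right; right; exact hx
    have hT : ∀ y ∈ Alph ar N (C.erase z),
        D.hsC y (ar z) - D.hsC (ar z) y ∈ Alph ar N (C.erase z) := by
      rintro y (⟨h, hh, hc, rfl⟩ | hy)
      · rw [← hA.mul]
        by_cases hN : (h * z).length ≤ N
        · left
          have hhH := hmem h (Finset.mem_of_mem_erase hh)
          have hhz : h * z ∈ H := by
            refine (hH.mul_iff h z).mpr ⟨hhH.1, (hmem z hz).1, hlt h hh, ?_⟩
            cases h with
            | of a => exact Or.inl ⟨a, rfl⟩
            | mul u v =>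
              refine Or.inr ⟨u, v, rfl, fun hvz => hc u v rfl ?_⟩
              refine hin v (hH.right u v hhH.1).1 ?_ hvz
              have := hhH.2
              simp only [FreeMagma.length] at this
              omega
          refine ⟨h * z, hin _ hhz hN (hH.right h z hhz).2, ?_, rfl⟩
          intro u v huv
          rw [← (mul_inj huv).2]
          simp
        · right
          exact Len_mono (fun n hn => by rw [hn]; omega) (hA.mem (h * z))
      · right
        exact sub_mem (hs_mem_big' N _ hy) (hs_mem_big N _ hy)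
    refine (Zs_mono hsub).trans ((D.isInt.key hT).trans (Submodule.span_le.mpr ?_))
    rintro _ ⟨j, G, hG, rfl⟩
    induction j with
    | zero => simpa using h1 hG
    | succ j ihj =>
      obtain ⟨m, hm, b, hb, e⟩ := Submodule.mem_sup.mp ihj
      have : ar z ^ (j + 1) * G = ar z * m + ar z * b := by
        rw [← mul_add, e]; ring
      rw [this]
      exact Submodule.add_mem_sup (mul_mem_Mon (hmem z hz).1 hm) (mul_mem_big N _ hb)

theorem IsHall.top_le [Finite α] (hH : IsHall H r) (hA : IsArea D ar) (N : ℕ) (x : D.Car) :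
    x ∈ Mon H ar ⊔ LenC D (N < ·) := by
  have h1 := hH.stage hA N _ (hH.finite_le N).toFinset rfl (by simp)
    (by intro h _ g hg hgN _; simpa using ⟨hg, hgN⟩)
  refine h1 ?_
  have hl : ∀ a : α, (Finsupp.single [a] 1 : List α →₀ ℚ) ∈
      Alph ar N (hH.finite_le N).toFinset := by
    intro a
    by_cases hN : 1 ≤ N
    · left
      exact ⟨FreeMagma.of a, by simpa using ⟨hH.of_mem a, hN⟩,
        fun u v huv => absurd huv of_ne_mul, hA.of a⟩
    · right
      exact single_mem_Len (by simp; omega)
  refine fs_ind (P := fun x : D.Car => x ∈ Zs D.hsC (Alph ar N (hH.finite_le N).toFinset))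
    (zero_mem _) (fun _ _ => add_mem) (fun c _ => Submodule.smul_mem _ c) ?_ x
  intro w
  induction w using List.reverseRecOn with
  | nil => exact one_mem_Zs (hs := D.hsC) _
  | append_singleton w b ih =>
    have := hs_mem_Zs ih (hl b)
    have e : D.hs (Finsupp.single w 1) (Finsupp.single [b] 1) = Finsupp.single (w ++ [b]) 1 := by
      have := D.hs_rec (Finsupp.single w 1) [] b
      rw [List.nil_append] at this
      rw [this, D.sh_one, app_single]
    rw [← e]
    exact this

end Pool.Agent.P.MP_9504dd_al
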