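import Mathlib
import Pool.Agent.P.MP_9504dd_al.Hall

set_option autoImplicit false

/-
The products of Hall areas over non-increasing lists of Hall trees form a basis.
-/

namespace Pool.Agent.P.MP_9504dd_al

variable {α : Type*}

/-- Projection onto the words of length `n`. -/
noncomputable def proj (α : Type*) (n : ℕ) : (List α →₀ ℚ) →ₗ[ℚ] (List α →₀ ℚ) :=
  (Finsupp.supported ℚ ℚ {w : List α | w.length = n}).subtype ∘ₗ
    Finsupp.restrictDom ℚ ℚ {w : List α | w.length = n}

theorem proj_single (n : ℕ) (w : List α) :
    proj α n (Finsupp.single w 1) = if w.length = n then Finsupp.single w 1 else 0 := by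
  classical
  simp only [proj, LinearMap.comp_apply, Submodule.subtype_apply, Finsupp.restrictDom_apply]
  split_ifs with h
  · exact Finsupp.filter_single_of_pos _ h
  · exact Finsupp.filter_single_of_neg _ h

theorem proj_self {n : ℕ} {x : List α →₀ ℚ} (hx : x ∈ Len α (· = n)) : proj α n x = x := by
  refine Len_ind (P := fun x => proj α n x = x) (by simp) ?_ ?_ ?_ hx
  · intro x y hx hy; rw [map_add, hx, hy]
  · intro c x hx; rw [map_smul, hx]
  · intro w hw; rw [proj_single, if_pos hw]

theorem proj_zero {n : ℕ} {p : ℕ → Prop} (hp : ¬ p n) {x : List α →₀ ℚ} (hx : x ∈ Len α p) :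
    proj α n x = 0 := by
  refine Len_ind (P := fun x => proj α n x = 0) (by simp) ?_ ?_ ?_ hx
  · intro x y hx hy; rw [map_add, hx, hy, add_zero]
  · intro c x hx; rw [map_smul, hx, smul_zero]
  · intro w hw
    rw [proj_single, if_neg]
    rintro rfl
    exact hp hw

variable {H : Set (FreeMagma α)} {r : FreeMagma α → FreeMagma α → Prop}
variable {D : ShData α} {ar : FreeMagma α → D.Car}

/-- Non-increasing lists of Hall trees. -/
abbrev Idx (H : Set (FreeMagma α)) (r : FreeMagma α → FreeMagma α → Prop) : Type _ :=
  {l : List (FreeMagma α) // (∀ t ∈ l, t ∈ H) ∧ l.Pairwise (fun x y => ¬ r x y)}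

/-- The product of the areas of a list of trees. -/
noncomputable def fam (D : ShData α) (ar : FreeMagma α → D.Car) (l : List (FreeMagma α)) :
    List α →₀ ℚ :=
  l.foldr (fun t acc => D.sh (ar t) acc) (Finsupp.single [] 1)

theorem fam_eq (l : List (FreeMagma α)) : fam D ar l = (l.map ar).prod := by
  induction l with
  | nil => rfl
  | cons t l ih =>
    rw [List.map_cons, List.prod_cons, ← ih]
    rfl

theorem IsArea.fam_mem (hA : IsArea D ar) (l : List (FreeMagma α)) :
    fam D ar l ∈ Len α (· = (l.flatMap fol).length) := by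
  induction l with
  | nil => exact single_mem_Len rfl
  | cons t l ih =>
    refine D.sh_mem ?_ (hA.mem t) ih
    rintro m n rfl rfl
    simp [length_fol]

theorem IsHall.exists_sorted (hH : IsHall H r) (l : List (FreeMagma α)) (hl : ∀ t ∈ l, t ∈ H) :
    ∃ s : Idx H r, s.1.Perm l := by
  classical
  have := hH.sto
  have h1 : Std.Total (fun x y : FreeMagma α => ¬ r x y) :=
    ⟨fun a b => by
      by_contra h
      push Not at h
      exact irrefl_of r a (_root_.trans h.1 h.2)⟩
  have h2 : IsTrans (FreeMagma α) (fun x y => ¬ r x y) :=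
    ⟨fun a b c hab hbc hac => by
      rcases trichotomous_of r b c with h | h | h
      · exact hbc h
      · subst h; exact hab hac
      · exact hab (_root_.trans hac h)⟩
  have hp := List.perm_insertionSort (fun x y : FreeMagma α => ¬ r x y) l
  exact ⟨⟨_, fun t ht => hl t (hp.mem_iff.mp ht), List.pairwise_insertionSort _ l⟩, hp⟩

theorem IsHall.mem_span [Finite α] (hH : IsHall H r) (hA : IsArea D ar) {n : ℕ}
    {x : List α →₀ ℚ} (hx : x ∈ Len α (· = n)) :
    x ∈ Submodule.span ℚ (Set.range
      (fun s : {s : Idx H r // (s.1.flatMap fol).length = n} => fam D ar s.1.1)) := by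
  obtain ⟨m, hm, b, hb, e⟩ := Submodule.mem_sup.mp (hH.top_le hA n x)
  have e' : proj α n m = x := by
    rw [← proj_self hx, ← e]
    have hb0 : proj α n b = 0 := proj_zero (p := (n < ·)) (lt_irrefl n) hb
    have : proj α n (m + b : D.Car) = proj α n m + proj α n b := map_add (proj α n) m b
    rw [this, hb0, add_zero]
  rw [← e']
  clear e' e hb hx
  induction hm using Submodule.span_induction with
  | mem y hy =>
    obtain ⟨l, hl, rfl⟩ := hy
    obtain ⟨s, hs⟩ := hH.exists_sorted l hl
    rw [← (hs.map ar).prod_eq, ← fam_eq]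
    by_cases hn : (s.1.flatMap fol).length = n
    · rw [proj_self (hn ▸ hA.fam_mem s.1)]
      exact Submodule.subset_span ⟨⟨s, hn⟩, rfl⟩
    · rw [proj_zero (fun h => hn h.symm) (hA.fam_mem s.1)]
      exact zero_mem _
  | zero => exact (map_zero (proj α n)).symm ▸ zero_mem _
  | add a b _ _ ha hb => exact (map_add (proj α n) a b).symm ▸ add_mem ha hb
  | smul c a _ ha => exact (map_smul (proj α n) c a).symm ▸ Submodule.smul_mem _ _ ha

theorem IsHall.span_top [Finite α] (hH : IsHall H r) (hA : IsArea D ar) :
    Submodule.span ℚ (Set.range (fun s : Idx H r => fam D ar s.1)) = ⊤ := by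
  refine eq_top_iff.mpr fun x _ => ?_
  refine fs_ind (P := fun x => x ∈ Submodule.span ℚ (Set.range (fun s : Idx H r => fam D ar s.1)))
    (zero_mem _) (fun _ _ => add_mem) (fun c _ => Submodule.smul_mem _ c) ?_ x
  intro w
  refine Submodule.span_mono ?_ (hH.mem_span hA (single_mem_Len (w := w) rfl))
  rintro _ ⟨s, rfl⟩
  exact ⟨s.1, rfl⟩

theorem IsHall.indep_deg [Finite α] (hH : IsHall H r) (hA : IsArea D ar) (n : ℕ) :
    LinearIndependent ℚ
      (fun s : {s : Idx H r // (s.1.flatMap fol).length = n} => fam D ar s.1.1) := by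
  classical
  let f : {s : Idx H r // (s.1.flatMap fol).length = n} → {w : List α | w.length = n} :=
    fun s => ⟨s.1.1.flatMap fol, s.2⟩
  have hf : Function.Injective f := by
    intro s t hst
    have h : s.1.1.flatMap fol = t.1.1.flatMap fol := congrArg Subtype.val hst
    have h1 := hH.insW_flat s.1.1 s.1.2.1 s.1.2.2
    have h2 := hH.insW_flat t.1.1 t.1.2.1 t.1.2.2
    rw [h, h2] at h1
    exact Subtype.ext (Subtype.ext h1.symm)
  have hfin : Finite {w : List α | w.length = n} := (List.finite_length_eq α n).to_subtype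
  have : Finite {s : Idx H r // (s.1.flatMap fol).length = n} := Finite.of_injective f hf
  let _ := Fintype.ofFinite {s : Idx H r // (s.1.flatMap fol).length = n}
  let _ := Fintype.ofFinite {w : List α | w.length = n}
  rw [linearIndependent_iff_card_le_finrank_span]
  have e : Submodule.span ℚ (Set.range
      (fun s : {s : Idx H r // (s.1.flatMap fol).length = n} => fam D ar s.1.1)) =
        Finsupp.supported ℚ ℚ {w : List α | w.length = n} := by
    refine le_antisymm (Submodule.span_le.mpr ?_) fun x hx => hH.mem_span hA hx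
    rintro _ ⟨s, rfl⟩
    have := hA.fam_mem s.1.1
    rw [s.2] at this
    exact this
  rw [Set.finrank, e, (Finsupp.supportedEquivFinsupp _).finrank_eq, Module.finrank_finsupp_self]
  exact Fintype.card_le_of_injective f hf

theorem IsHall.indep [Finite α] (hH : IsHall H r) (hA : IsArea D ar) :
    LinearIndependent ℚ (fun s : Idx H r => fam D ar s.1) := by
  classical
  rw [linearIndependent_iff']
  intro T g hsum s hs
  set n := (s.1.flatMap fol).length with hn
  have h1 := linearIndependent_iff'.mp (hH.indep_deg hA n)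
    (T.subtype (fun s : Idx H r => (s.1.flatMap fol).length = n)) (fun s => g s.1) ?_
    ⟨s, rfl⟩ (by simpa using hs)
  · exact h1
  rw [Finset.sum_subtype_eq_sum_filter (f := fun s : Idx H r => g s • fam D ar s.1),
    Finset.sum_filter]
  have h2 := congrArg (proj α n) hsum
  rw [map_sum, map_zero] at h2
  refine Eq.trans (Finset.sum_congr rfl fun t _ => ?_) h2
  rw [map_smul]
  split_ifs with h
  · rw [proj_self (h ▸ hA.fam_mem t.1)]
  · rw [proj_zero (fun h' => h h'.symm) (hA.fam_mem t.1), smul_zero]

end Pool.Agent.P.MP_9504dd_al
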