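import Mathlib
import Pool.Agent.P.MP_9504dd_al.Basis

set_option autoImplicit false

namespace Pool.Agent.P.MP_9504dd_al

theorem final {α : Type} [Finite α] (H : Set (FreeMagma α)) (r : FreeMagma α → FreeMagma α → Prop)
    (D : ShData α) (ar : FreeMagma α → (List α →₀ ℚ)) (hH : IsHall H r)
    (h10 : ∀ a : α, ar (FreeMagma.of a) = Finsupp.single [a] 1)
    (h11 : ∀ x y : FreeMagma α, ar (x * y) = D.hs (ar x) (ar y) - D.hs (ar y) (ar x)) :
    LinearIndependent ℚ
      (fun l : {l : List (FreeMagma α) //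
          (∀ t ∈ l, t ∈ H) ∧ l.Pairwise (fun x y => ¬ r x y)} =>
        l.1.foldr (fun t acc => D.sh (ar t) acc) (Finsupp.single [] 1)) ∧
    Submodule.span ℚ (Set.range
      (fun l : {l : List (FreeMagma α) //
          (∀ t ∈ l, t ∈ H) ∧ l.Pairwise (fun x y => ¬ r x y)} =>
        l.1.foldr (fun t acc => D.sh (ar t) acc) (Finsupp.single [] 1))) = ⊤ := by
  have hA : IsArea D ar := ⟨h10, h11⟩
  exact ⟨hH.indep hA, hH.span_top hA⟩

end Pool.Agent.P.MP_9504dd_al
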